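import Pool.Agent.H5.HL.Two

/-!
# The level of a line in a full time, for an arbitrary law

`two_lineG`: `two_line` for an arbitrary law `q` and an arbitrary conditioning `W`: the integer `ν` is
near the value at the time `t` of a polynomial which is a function of `W`, the time is full given `W`,
the digits of `ν` take few values in all blocks given a function `x` of `W`: the polynomial is constant
up to the lowest block.
-/

set_option autoImplicit false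

namespace Pool.ND77

open Finset Real
open Pool.Agent.H49.Ent Pool.Agent.H32.Dense Pool.STK Pool.MIC Pool.K2S
open Pool.BFL (Pb)
open Pool.STB (Pb_mono Pb_or)
open Pool.HL5 (blk Pb_ex)

/-- **The level in a full time, arbitrary law.** -/
theorem two_lineG (d : ℕ) : ∃ C : ℕ, 1 ≤ C ∧ ∀ (Ω Λ X : Type) [Fintype Ω] (q : Ω → ℝ)
    (W : Ω → Λ) (t : Ω → ℤ) (x : Λ → X) (P : Λ → Polynomial ℝ)
    (ν : Ω → ℤ) (B : Ω → Prop) (S : ℕ → X × ℤ → Finset ℤ) (n M : ℕ) (N a b : ℕ → ℕ)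
    (V : ℕ → ℝ) (K e c₀ c₁ c₂ ρ : ℝ), IsLaw q → 1 ≤ M → 0 < ρ → ρ < 1 →
    (C : ℝ) ≤ ρ ^ C * (2 * M + 1) →
    (∀ ω, 0 < q ω → |t ω| ≤ (M : ℤ)) →
    Real.log (2 * M + 1) - e ≤ CH q t W →
    (∀ l, (P l).natDegree ≤ d) →
    Pb q (fun ω => ¬ |(ν ω : ℝ) - (P (W ω)).eval ((t ω : ℝ) / M)| ≤ K) ≤ c₁ →
    (∀ k < n, ∀ ω, 0 < q ω → B ω → ν ω / 2 ^ a k ∈ S k (x (W ω), ν ω / 2 ^ b k)) →
    (∀ k < n, ∀ w, (S k w).card ≤ N k) → Pb q (fun ω => ¬ B ω) ≤ c₀ →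
    Pb q (fun ω => ¬ ∀ s : ℝ, |s| ≤ 1 → |(P (W ω)).eval s - (P (W ω)).eval 0| ≤ V n) ≤ c₂ →
    (∀ k < n, a k ≤ b k ∧ K ≤ 2 ^ a k ∧ 0 < V k ∧ V (k + 1) ≤ 2 ^ b k ∧
      (C : ℝ) * N k * 2 ^ a k ≤ ρ ^ C * V k ∧ (C : ℝ) * N k ≤ ρ ^ C * M) →
    Pb q (fun ω => ¬ ∀ s : ℝ, |s| ≤ 1 → |(P (W ω)).eval s - (P (W ω)).eval 0| ≤ V 0) ≤
      c₀ + c₁ + c₂ + n * ((e + Real.log 2) / Real.log (1 / ρ)) := by
  classical
  obtain ⟨C, hC, hb⟩ := blk d
  refine ⟨C, hC, ?_⟩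
  intro Ω Λ X _ q W t x P ν B S n M N a b V K e c₀ c₁ c₂ ρ hql hM hρ hρ1 hCM htM hft
    hdeg hnear hrow hcard hB htop hnum
  have q0 := hql.nonneg
  have hl : 0 < Real.log (1 / ρ) := Real.log_pos (by rw [lt_div_iff₀ hρ]; linarith)
  obtain ⟨Gd, hGd⟩ : ∃ Gd : Ω → Prop, Gd = fun w =>
    |(ν w : ℝ) - (P (W w)).eval ((t w : ℝ) / M)| ≤ K ∧ B w := ⟨_, rfl⟩
  obtain ⟨E, hE⟩ : ∃ E : ℕ → Ω → Prop, E = fun k w => Gd w ∧
    (∃ s : ℝ, |s| ≤ 1 ∧ V k < |(P (W w)).eval s - (P (W w)).eval 0|) ∧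
      ∀ s : ℝ, |s| ≤ 1 → |(P (W w)).eval s - (P (W w)).eval 0| ≤ 2 ^ b k := ⟨_, rfl⟩
  have hblk : ∀ k < n, Pb q (E k) ≤ (e + Real.log 2) / Real.log (1 / ρ) := by
    intro k hk
    obtain ⟨n1, n2, n3, n4, n5, n6⟩ := hnum k hk
    rw [le_div_iff₀ hl]
    have h1 := hb Ω Λ X q W t P x ν Gd (S k) M (N k) (a k) (b k) K (V k) e ρ
      hql hM hρ hρ1.le htM hft hdeg (fun w hw hg => by
        rw [hGd] at hg
        exact hg.1) (fun w hw hg => by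
        rw [hGd] at hg
        exact hrow k hk w hw hg.2) (hcard k hk) n1 n2 n3 hCM n5 n6
    rw [hE]
    exact h1
  have hex := Pb_ex q0 E n
  have hsum : ∑ k ∈ Finset.range n, Pb q (E k) ≤ n * ((e + Real.log 2) / Real.log (1 / ρ)) := by
    refine (Finset.sum_le_sum fun k hk => hblk k (Finset.mem_range.1 hk)).trans ?_
    rw [Finset.sum_const, Finset.card_range, nsmul_eq_mul]
  -- the smallest block
  have hcov : ∀ w, 0 < q w → (¬ ∀ s : ℝ, |s| ≤ 1 → |(P (W w)).eval s -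
      (P (W w)).eval 0| ≤ V 0) →
      (∃ k < n, E k w) ∨ (¬ |(ν w : ℝ) - (P (W w)).eval ((t w : ℝ) / M)| ≤ K ∨
        (¬ B w ∨ ¬ ∀ s : ℝ, |s| ≤ 1 → |(P (W w)).eval s - (P (W w)).eval 0| ≤ V n)) := by
    intro w hw h0
    by_contra hcon
    rw [not_or, not_or, not_or, not_not, not_not, not_not] at hcon
    obtain ⟨g1, g2, g3, g4⟩ := hcon
    apply h0
    have hind : ∀ j ≤ n, ∀ s : ℝ, |s| ≤ 1 → |(P (W w)).eval s -
        (P (W w)).eval 0| ≤ V (n - j) := by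
      intro j
      induction j with
      | zero =>
        intro _
        rw [Nat.sub_zero]
        exact g4
      | succ j ih =>
        intro hj s hs
        by_contra hlt
        push Not at hlt
        have hk : n - (j + 1) < n := by omega
        have hk1 : n - (j + 1) + 1 = n - j := by omega
        obtain ⟨-, -, -, n4, -, -⟩ := hnum _ hk
        rw [hk1] at n4
        refine g1 ⟨n - (j + 1), hk, ?_⟩
        rw [hE]
        refine ⟨?_, ⟨s, hs, hlt⟩, fun s' hs' => (ih (by omega) s' hs').trans n4⟩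
        rw [hGd]
        exact ⟨g2, g3⟩
    have := hind n le_rfl
    rw [Nat.sub_self] at this
    exact this
  refine (Pb_mono q0 hcov).trans ((Pb_or q0 _ _).trans ?_)
  have h2 := Pb_or q0 (fun w => ¬ |(ν w : ℝ) - (P (W w)).eval ((t w : ℝ) / M)| ≤ K)
    (fun w => ¬ B w ∨ ¬ ∀ s : ℝ, |s| ≤ 1 → |(P (W w)).eval s - (P (W w)).eval 0| ≤ V n)
  have h3 := Pb_or q0 (fun w => ¬ B w) (fun w => ¬ ∀ s : ℝ, |s| ≤ 1 →
      |(P (W w)).eval s - (P (W w)).eval 0| ≤ V n)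
  linarith

end Pool.ND77
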